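import Pool.Agent.Helper34.CAR.GoalsB

/-!
# Project CAR: packet ACT (the circle action on the limit)
-/

open scoped ComplexOrder ZeroAtInfty

namespace Pool.Agent.Helper50.CAR

open Pool.Agent.Helper39.Uct Pool.Agent.Helper34.CAR

section diag

variable {I B : Type} [Fintype I] [DecidableEq I] [CStarAlgebra B]

theorem circ_star_mul (z : Circle) (k : ℕ) :
    star ((z : ℂ) ^ k) * (z : ℂ) ^ k = 1 := by
  have h : star (z : ℂ) * (z : ℂ) = 1 := by
    have := Circle.normSq_coe z
    rw [Complex.star_def, ← Complex.normSq_eq_conj_mul_self, this]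
    norm_num
  rw [star_pow, ← mul_pow, h, one_pow]

theorem circ_mul_star (z : Circle) (k : ℕ) :
    (z : ℂ) ^ k * star ((z : ℂ) ^ k) = 1 := by
  rw [mul_comm, circ_star_mul]

/-- conjugation by the diagonal unitary with entries `z ^ n x` -/
noncomputable def cj (z : Circle) (n : I → ℕ) : Mt I B →⋆ₐ[ℂ] Mt I B where
  toFun a := Mt.of fun x y => ((z : ℂ) ^ n x * star ((z : ℂ) ^ n y)) • a x y
  map_one' := by
    ext x y
    rw [Mt.of_apply, Mt.one_apply]
    by_cases h : x = y
    · rw [if_pos h, h, circ_mul_star, one_smul]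
    · rw [if_neg h, smul_zero]
  map_mul' a b := by
    ext x y
    rw [Mt.of_apply, Mt.mul_apply, Mt.mul_apply, Finset.smul_sum]
    refine Finset.sum_congr rfl fun k _ => ?_
    rw [Mt.of_apply, Mt.of_apply, smul_mul_smul_comm]
    congr 1
    have h := circ_star_mul z (n k)
    calc (z : ℂ) ^ n x * star ((z : ℂ) ^ n y) =
        (z : ℂ) ^ n x * (star ((z : ℂ) ^ n k) * (z : ℂ) ^ n k) * star ((z : ℂ) ^ n y) := by
          rw [h, mul_one]
      _ = _ := by ring
  map_zero' := by ext x y; rw [Mt.of_apply, Mt.zero_apply, smul_zero]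
  map_add' a b := by
    ext x y
    rw [Mt.of_apply, Mt.add_apply, smul_add, Mt.add_apply, Mt.of_apply, Mt.of_apply]
  commutes' c := by
    ext x y
    rw [Mt.of_apply, Mt.algebraMap_apply]
    by_cases h : x = y
    · rw [if_pos h, h, circ_mul_star, one_smul]
    · rw [if_neg h, smul_zero]
  map_star' a := by
    ext x y
    rw [Mt.of_apply, Mt.star_apply, Mt.star_apply, Mt.of_apply, star_smul]
    congr 1
    rw [star_mul, star_star]

theorem cj_apply (z : Circle) (n : I → ℕ) (a : Mt I B) (x y : I) :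
    cj z n a x y = ((z : ℂ) ^ n x * star ((z : ℂ) ^ n y)) • a x y := rfl

theorem cj_one (n : I → ℕ) (a : Mt I B) : cj 1 n a = a := by
  ext x y
  rw [cj_apply]
  simp

theorem cj_mul (z w : Circle) (n : I → ℕ) (a : Mt I B) :
    cj (z * w) n a = cj z n (cj w n a) := by
  ext x y
  rw [cj_apply, cj_apply, cj_apply, smul_smul]
  congr 1
  push_cast
  rw [mul_pow, mul_pow, star_mul]
  ring

theorem cj_cont (n : I → ℕ) (a : Mt I B) : Continuous fun z : Circle => cj z n a := by
  have h : (fun z : Circle => cj z n a) = fun z : Circle =>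
      ∑ i, ∑ j, ((z : ℂ) ^ n i * star ((z : ℂ) ^ n j)) • Mt.single i j (a i j) := by
    funext z
    conv_lhs => rw [Mt.eq_sum_single (cj z n a)]
    refine Finset.sum_congr rfl fun i _ => Finset.sum_congr rfl fun j _ => ?_
    ext x y
    rw [Mt.smul_apply, Mt.single_apply, Mt.single_apply, cj_apply]
    split_ifs
    · rfl
    · rw [smul_zero]
  rw [h]
  refine continuous_finsetSum _ fun i _ => continuous_finsetSum _ fun j _ => ?_
  have h3 : Continuous fun _ : Circle => Mt.single i j (a i j) := continuous_const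
  have hz : Continuous fun z : Circle => (z : ℂ) := continuous_subtype_val
  have h1 : Continuous fun z : Circle => (z : ℂ) ^ n i := hz.pow _
  have h2 : Continuous fun z : Circle => star ((z : ℂ) ^ n j) := (hz.pow _).star
  exact (h1.mul h2).smul h3

end diag

theorem cj_kap {B : Type} [CStarAlgebra B] {θ : B →⋆ₐ[ℂ] B} (s : Sys B θ) (z : Circle) (i : ℕ)
    (a : s.A i) : s.κ i (cj z (s.wt i) a) = cj z (s.wt (i + 1)) (s.κ i a) := by
  obtain ⟨-, -, -, -, -, hoff, -⟩ := s.step i
  ext x y
  rw [Sys.κ_apply, cj_apply, cj_apply, Sys.κ_apply, map_smul, Mt.smul_apply]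
  have hw : ∀ x : s.S (i + 1),
      s.wt (i + 1) x = s.wt i (s.e i x).1 + if (s.e i x).2 = s.c0 i then 1 else 0 := fun _ => rfl
  rw [hw x, hw y]
  by_cases h1 : (s.e i x).2 = s.c0 i <;> by_cases h2 : (s.e i y).2 = s.c0 i
  · rw [if_pos h1, if_pos h2]
    congr 1
    have h := circ_mul_star z 1
    rw [pow_one] at h
    rw [pow_succ, pow_succ, star_mul]
    calc (z : ℂ) ^ s.wt i (s.e i x).1 * star ((z : ℂ) ^ s.wt i (s.e i y).1) =
        (z : ℂ) ^ s.wt i (s.e i x).1 * ((z : ℂ) * star (z : ℂ)) *
          star ((z : ℂ) ^ s.wt i (s.e i y).1) := by rw [h, mul_one]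
      _ = _ := by ring
  · rw [hoff _ _ _ (fun h => h2 (by rw [← h, h1])) (Or.inl h1), smul_zero, smul_zero]
  · rw [hoff _ _ _ (fun h => h1 (by rw [h, h2])) (Or.inr (Or.inr (Or.inl h2))), smul_zero,
      smul_zero]
  · rw [if_neg h1, if_neg h2, add_zero, add_zero]

theorem cont_nu {A R : Type} [NonUnitalCStarAlgebra A] [NonUnitalCStarAlgebra R]
    (f : A →⋆ₙₐ[ℂ] R) : Continuous f := by
  refine continuous_iff_continuousAt.mpr fun a => ?_
  rw [Metric.continuousAt_iff]
  intro ε hε
  refine ⟨ε, hε, fun {b} hb => ?_⟩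
  rw [dist_eq_norm, ← map_sub]
  refine lt_of_le_of_lt (NonUnitalStarAlgHom.norm_apply_le f _) ?_
  rwa [← dist_eq_norm]

theorem act (hE : S_EXT) : S_ACT := by
  intro B _ θ s L _ ι hι hinj hdense
  have hex : ∀ z : Circle, ∃ F : L →⋆ₙₐ[ℂ] L, ∀ i (x : s.A i),
      F (ι i x) = ι i (cj z (s.wt i) x) := by
    intro z
    obtain ⟨F, hF⟩ := hE L L (fun i => s.A i) (fun i => (ι i).toNonUnitalStarAlgHom)
      (fun i => ((ι i).comp (cj z (s.wt i))).toNonUnitalStarAlgHom) hinj
      (fun i x => ⟨s.κ i x, hι i x, by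
        show ι (i + 1) (cj z (s.wt (i + 1)) (s.κ i x)) = ι i (cj z (s.wt i) x)
        rw [← cj_kap, hι]⟩) hdense
    exact ⟨F, hF⟩
  choose F hF using hex
  have hFc : ∀ z, Continuous (F z) := fun z => cont_nu (F z)
  have hF1 : ∀ z, F z 1 = 1 := by
    intro z
    have h1 : (1 : L) = ι 0 1 := (map_one (ι 0)).symm
    rw [h1, hF, map_one, map_one]
  have heq : ∀ f g : L → L, Continuous f → Continuous g →
      (∀ i (x : s.A i), f (ι i x) = g (ι i x)) → ∀ b, f b = g b := by
    intro f g hf hg hfg b
    have : Set.EqOn f g (⋃ i, Set.range (ι i)) := by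
      rintro _ hb
      obtain ⟨i, hi⟩ := Set.mem_iUnion.mp hb
      obtain ⟨x, rfl⟩ := hi
      exact hfg i x
    exact congrFun (Continuous.ext_on hdense hf hg this) b
  let γ : CircleAction L :=
    { act := fun z =>
        { toFun := fun b => F z b
          map_one' := hF1 z
          map_mul' := fun a b => map_mul (F z) a b
          map_zero' := map_zero (F z)
          map_add' := fun a b => map_add (F z) a b
          commutes' := fun c => by
            show F z (algebraMap ℂ L c) = algebraMap ℂ L c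
            rw [Algebra.algebraMap_eq_smul_one, map_smul, hF1]
          map_star' := fun a => map_star (F z) a }
      one := fun a => heq _ _ (hFc 1) continuous_id (fun i x => by
        show F 1 (ι i x) = ι i x
        rw [hF, cj_one]) a
      mul := fun z w a => heq _ _ (hFc (z * w)) ((hFc z).comp (hFc w)) (fun i x => by
        show F (z * w) (ι i x) = F z (F w (ι i x))
        rw [hF, hF, hF, cj_mul]) a
      cont := fun a => by
        show Continuous fun z => F z a
        refine continuous_of_uniform_approx_of_continuous ?_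
        intro u hu
        obtain ⟨ε, hε, hεu⟩ := Metric.mem_uniformity_dist.mp hu
        obtain ⟨b, hb, hab⟩ := Metric.dense_iff.mp hdense a ε hε
        obtain ⟨i, hi⟩ := Set.mem_iUnion.mp hab
        obtain ⟨x, rfl⟩ := hi
        refine ⟨fun z => F z (ι i x), ?_, ?_⟩
        · simp only [hF]
          exact (cont_nu (ι i).toNonUnitalStarAlgHom).comp (cj_cont _ x)
        · intro z
          apply hεu
          rw [dist_eq_norm, ← map_sub]
          refine lt_of_le_of_lt (NonUnitalStarAlgHom.norm_apply_le (F z) _) ?_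
          rw [← dist_eq_norm, dist_comm]
          exact hb }
  exact ⟨γ, fun z i a => hF z i a⟩

end Pool.Agent.Helper50.CAR
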